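import Pool.Agent.TH785.DP.Prod

/-!
# Closure properties
-/

set_option autoImplicit false

namespace Pool.Agent.TH785.DP

open Set Topology

universe u v w

theorem IsDelta.of_finite_fibers {X : Type u} {Y : Type v} [TopologicalSpace X]
    [TopologicalSpace Y] (hX : IsDelta X) (f : Y → X) (hf : Continuous f)
    (hfin : ∀ x, (f ⁻¹' {x}).Finite) : IsDelta Y := by
  intro D hD hDe
  obtain ⟨V, hVa, hVo, hVs, hVe⟩ := hX (fun n => f '' D n) (fun m n hmn => image_mono (hD hmn)) (by
    rw [eq_empty_iff_forall_notMem]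
    intro x hx
    have h2 : ∀ y : Y, ∃ k, y ∉ D k := by
      intro y
      by_contra hcon
      push Not at hcon
      have : y ∈ ⋂ n, D n := mem_iInter.2 hcon
      rw [hDe] at this
      exact this
    choose k hk using h2
    obtain ⟨b, hb⟩ := ((hfin x).image k).bddAbove
    obtain ⟨y, hy, rfl⟩ := mem_iInter.1 hx b
    exact hk y (hD (hb (mem_image_of_mem k rfl)) hy))
  refine ⟨fun n => f ⁻¹' V n, fun m n hmn => preimage_mono (hVa hmn),
    fun n => (hVo n).preimage hf, fun n y hy => hVs n ⟨y, hy, rfl⟩, ?_⟩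
  rw [← preimage_iInter, hVe, preimage_empty]

theorem IsDelta.of_homeomorph {X : Type u} {Y : Type v} [TopologicalSpace X]
    [TopologicalSpace Y] (hX : IsDelta X) (e : Y ≃ₜ X) : IsDelta Y :=
  hX.of_finite_fibers e e.continuous fun x => by
    refine (finite_singleton (e.symm x)).subset ?_
    rintro y hy
    rw [mem_preimage, mem_singleton_iff] at hy
    rw [mem_singleton_iff, ← hy, e.symm_apply_apply]

/-- A countable union of closed `Δ`-subspaces. -/
theorem IsDelta.iUnion_closed {X : Type u} [TopologicalSpace X] (F : ℕ → Set X)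
    (hF : ∀ k, IsClosed (F k)) (hU : (⋃ k, F k) = univ) (h : ∀ k, IsDelta (F k)) :
    IsDelta X := by
  intro D hD hDe
  have h1 : ∀ k, ∃ V : ℕ → Set (F k), Antitone V ∧ (∀ n, IsOpen (V n)) ∧
      (∀ n, (↑) ⁻¹' D n ⊆ V n) ∧ (⋂ n, V n) = ∅ := by
    intro k
    refine h k (fun n => (↑) ⁻¹' D n) (fun m n hmn => preimage_mono (hD hmn)) ?_
    rw [← preimage_iInter, hDe, preimage_empty]
  choose V hVa hVo hVs hVe using h1
  refine ⟨fun n => ⋂ k ∈ Iic n, ((↑) '' (V k n) ∪ (F k)ᶜ), ?_, ?_, ?_, ?_⟩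
  · intro m n hmn x hx
    rw [mem_iInter₂] at hx ⊢
    intro k hk
    rcases hx k (le_trans hk hmn) with h2 | h2
    · exact Or.inl (image_mono (hVa k hmn) h2)
    · exact Or.inr h2
  · intro n
    refine (finite_Iic n).isOpen_biInter fun k _ => ?_
    obtain ⟨O, hO, hOe⟩ := isOpen_induced_iff.1 (hVo k n)
    have : ((↑) '' (V k n) : Set X) ∪ (F k)ᶜ = O ∪ (F k)ᶜ := by
      rw [← hOe, Subtype.image_preimage_coe]
      ext z
      by_cases hz : z ∈ F k <;> simp [hz]
    rw [this]
    exact hO.union (hF k).isOpen_compl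
  · intro n x hx
    rw [mem_iInter₂]
    intro k _
    by_cases hk : x ∈ F k
    · exact Or.inl ⟨⟨x, hk⟩, hVs k n hx, rfl⟩
    · exact Or.inr hk
  · rw [eq_empty_iff_forall_notMem]
    intro x hx
    have hxU : x ∈ ⋃ k, F k := by rw [hU]; exact mem_univ x
    obtain ⟨k, hk⟩ := mem_iUnion.1 hxU
    have h2 : ∃ n, (⟨x, hk⟩ : F k) ∉ V k n := by
      by_contra hcon
      push Not at hcon
      have : (⟨x, hk⟩ : F k) ∈ ⋂ n, V k n := mem_iInter.2 hcon
      rw [hVe k] at this
      exact this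
    obtain ⟨n, hn⟩ := h2
    have h3 := mem_iInter₂.1 (mem_iInter.1 hx (max n k)) k (mem_Iic.2 (le_max_right n k))
    rcases h3 with ⟨z, hz, he⟩ | h3
    · have : z = ⟨x, hk⟩ := Subtype.ext he
      rw [this] at hz
      exact hn (hVa k (le_max_left n k) hz)
    · exact h3 hk

/-- A closed retract and its complement. -/
theorem IsDelta.of_retract {X : Type u} [TopologicalSpace X] (F : Set X) (hF : IsClosed F)
    (r : X → F) (hr : Continuous r) (hrF : ∀ x : F, r x = x)
    (h1 : IsDelta F) (h2 : IsDelta (Fᶜ : Set X)) : IsDelta X := by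
  intro D hD hDe
  obtain ⟨V, hVa, hVo, hVs, hVe⟩ := h1 (fun n => (↑) ⁻¹' D n)
    (fun m n hmn => preimage_mono (hD hmn)) (by rw [← preimage_iInter, hDe, preimage_empty])
  obtain ⟨W, hWa, hWo, hWs, hWe⟩ := h2 (fun n => (↑) ⁻¹' D n)
    (fun m n hmn => preimage_mono (hD hmn)) (by rw [← preimage_iInter, hDe, preimage_empty])
  refine ⟨fun n => r ⁻¹' V n ∪ (↑) '' W n, ?_, ?_, ?_, ?_⟩
  · intro m n hmn
    exact union_subset_union (preimage_mono (hVa hmn)) (image_mono (hWa hmn))
  · intro n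
    exact ((hVo n).preimage hr).union (hF.isOpen_compl.isOpenMap_subtype_val _ (hWo n))
  · intro n x hx
    by_cases h : x ∈ F
    · refine Or.inl ?_
      rw [mem_preimage, hrF ⟨x, h⟩]
      exact hVs n hx
    · exact Or.inr ⟨⟨x, h⟩, hWs n hx, rfl⟩
  · rw [eq_empty_iff_forall_notMem]
    intro x hx
    have h3 : ∃ n, r x ∉ V n := by
      by_contra hcon
      push Not at hcon
      have : r x ∈ ⋂ n, V n := mem_iInter.2 hcon
      rw [hVe] at this
      exact this
    obtain ⟨n, hn⟩ := h3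
    have h4 : ∃ m, x ∉ ((↑) '' W m : Set X) := by
      by_cases h : x ∈ F
      · exact ⟨0, fun ⟨z, _, he⟩ => z.2 (he ▸ h)⟩
      · by_contra hcon
        push Not at hcon
        have : (⟨x, h⟩ : (Fᶜ : Set X)) ∈ ⋂ n, W n := by
          refine mem_iInter.2 fun m => ?_
          obtain ⟨z, hz, he⟩ := hcon m
          have : z = ⟨x, h⟩ := Subtype.ext he
          rw [← this]
          exact hz
        rw [hWe] at this
        exact this
    obtain ⟨m, hm⟩ := h4
    rcases mem_iInter.1 hx (max n m) with h5 | h5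
    · exact hn (hVa (le_max_left n m) h5)
    · exact hm (image_mono (hWa (le_max_right n m)) h5)

/-- `X` is productively `Δ`: the product of `X` with every `Δ`-space is a `Δ`-space. -/
def ProductivelyDelta (X : Type u) [TopologicalSpace X] : Prop :=
  ∀ (Y : Type u) [TopologicalSpace Y], IsDelta Y → IsDelta (X × Y)

theorem HasPFN.productivelyDelta {X : Type u} [TopologicalSpace X] (hX : HasPFN X) :
    ProductivelyDelta X := fun _ _ hY => hX.prod_isDelta hY

theorem ProductivelyDelta.of_finite_fibers {X : Type u} {Z : Type u} [TopologicalSpace X]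
    [TopologicalSpace Z] (hX : ProductivelyDelta X) (f : Z → X) (hf : Continuous f)
    (hfin : ∀ x, (f ⁻¹' {x}).Finite) : ProductivelyDelta Z := by
  intro Y _ hY
  refine (hX Y hY).of_finite_fibers (Prod.map f id) (hf.prodMap continuous_id) ?_
  rintro ⟨x, y⟩
  refine ((hfin x).prod (finite_singleton y)).subset ?_
  rintro ⟨z, y'⟩ h
  simp only [mem_preimage, Prod.map_apply, id_eq, mem_singleton_iff, Prod.mk.injEq] at h
  exact ⟨h.1, h.2⟩

theorem ProductivelyDelta.prod {X : Type u} {Z : Type u} [TopologicalSpace X]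
    [TopologicalSpace Z] (hX : ProductivelyDelta X) (hZ : ProductivelyDelta Z) :
    ProductivelyDelta (X × Z) := by
  intro Y _ hY
  exact (hX _ (hZ Y hY)).of_homeomorph (Homeomorph.prodAssoc X Z Y)

theorem ProductivelyDelta.iUnion_closed {X : Type u} [TopologicalSpace X] (F : ℕ → Set X)
    (hF : ∀ k, IsClosed (F k)) (hU : (⋃ k, F k) = univ) (h : ∀ k, ProductivelyDelta (F k)) :
    ProductivelyDelta X := by
  intro Y _ hY
  refine IsDelta.iUnion_closed (fun k => F k ×ˢ (univ : Set Y))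
    (fun k => (hF k).prod isClosed_univ) ?_ fun k => ?_
  · ext ⟨x, y⟩
    have : x ∈ ⋃ k, F k := by rw [hU]; exact mem_univ x
    simp only [mem_iUnion, mem_prod, mem_univ, and_true, iff_true]
    exact mem_iUnion.1 this
  · refine (h k Y hY).of_finite_fibers (fun p => (⟨p.1.1, p.2.1⟩, p.1.2)) (by fun_prop) ?_
    rintro ⟨x, y⟩
    refine (finite_singleton (⟨(x.1, y), x.2, mem_univ y⟩ : (F k ×ˢ (univ : Set Y) : Set _))).subset ?_
    rintro ⟨⟨x', y'⟩, hx'⟩ he
    simp only [mem_preimage, mem_singleton_iff, Prod.mk.injEq] at he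
    obtain ⟨h1, h2⟩ := he
    rw [mem_singleton_iff]
    apply Subtype.ext
    simp only [Prod.mk.injEq]
    exact ⟨congrArg Subtype.val h1, h2⟩

theorem ProductivelyDelta.of_retract {X : Type u} [TopologicalSpace X] (F : Set X)
    (hF : IsClosed F) (r : X → F) (hr : Continuous r) (hrF : ∀ x : F, r x = x)
    (h1 : ProductivelyDelta F) (h2 : ProductivelyDelta (Fᶜ : Set X)) :
    ProductivelyDelta X := by
  intro Y _ hY
  refine IsDelta.of_retract (F ×ˢ (univ : Set Y)) (hF.prod isClosed_univ)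
    (fun p => ⟨((r p.1 : X), p.2), (r p.1).2, mem_univ _⟩) (by fun_prop) ?_ ?_ ?_
  · rintro ⟨⟨x, y⟩, hx⟩
    apply Subtype.ext
    simp only [Prod.mk.injEq, and_true]
    exact congrArg Subtype.val (hrF ⟨x, hx.1⟩)
  · refine (h1 Y hY).of_finite_fibers (fun p => (⟨p.1.1, p.2.1⟩, p.1.2)) (by fun_prop) ?_
    rintro ⟨x, y⟩
    refine (finite_singleton (⟨(x.1, y), x.2, mem_univ y⟩ : (F ×ˢ (univ : Set Y) : Set _))).subset ?_
    rintro ⟨⟨x', y'⟩, hx'⟩ he
    simp only [mem_preimage, mem_singleton_iff, Prod.mk.injEq] at he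
    obtain ⟨h1, h2⟩ := he
    rw [mem_singleton_iff]
    apply Subtype.ext
    simp only [Prod.mk.injEq]
    exact ⟨congrArg Subtype.val h1, h2⟩
  · have hm : ∀ p : ((F ×ˢ (univ : Set Y))ᶜ : Set (X × Y)), p.1.1 ∈ (Fᶜ : Set X) :=
      fun p hp => p.2 ⟨hp, mem_univ _⟩
    refine (h2 Y hY).of_finite_fibers (fun p => (⟨p.1.1, hm p⟩, p.1.2)) (by fun_prop) ?_
    rintro ⟨x, y⟩
    refine (finite_singleton (⟨(x.1, y), fun h => x.2 h.1⟩ :
      ((F ×ˢ (univ : Set Y))ᶜ : Set (X × Y)))).subset ?_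
    rintro ⟨⟨x', y'⟩, hx'⟩ he
    simp only [mem_preimage, mem_singleton_iff, Prod.mk.injEq] at he
    obtain ⟨h1, h2⟩ := he
    rw [mem_singleton_iff]
    apply Subtype.ext
    simp only [Prod.mk.injEq]
    exact ⟨congrArg Subtype.val h1, h2⟩

end Pool.Agent.TH785.DP
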