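import Mathlib
import Pool.Agent.TH785.DP.Close
import Pool.Agent.H151.Combi
import Pool.Agent.W684.FM.Ambient

/-!
# Almost disjoint families of countable sets under Martin's axiom
-/

set_option autoImplicit false

namespace Pool.Agent.TH785.DP

open Set Topology Cardinal Pool.Agent.W684 Pool.Agent.W684.FM

/-- Conditions: a finite partial function and finitely many promises. -/
structure Cnd {S ι : Type} (A : ι → Set S) where
  /-- the domain -/
  dom : Finset S
  /-- the values -/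
  val : S → ℕ
  /-- the promises -/
  pr : Finset (ι × ℕ)

variable {S ι : Type} {A : ι → Set S}

instance : Preorder (Cnd A) where
  le p q := q.dom ⊆ p.dom ∧ (∀ s ∈ q.dom, p.val s = q.val s) ∧ q.pr ⊆ p.pr ∧
    ∀ s ∈ p.dom, s ∉ q.dom → ∀ z ∈ q.pr, s ∈ A z.1 → z.2 < p.val s
  le_refl p := ⟨Finset.Subset.refl _, fun _ _ => rfl, Finset.Subset.refl _,
    fun _ h h' => absurd h h'⟩
  le_trans p q r := by
    rintro ⟨h1, h2, h3, h4⟩ ⟨k1, k2, k3, k4⟩
    refine ⟨k1.trans h1, fun s hs => (h2 s (k1 hs)).trans (k2 s hs), k3.trans h3, ?_⟩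
    intro s hs hs' z hz hsz
    by_cases hq : s ∈ q.dom
    · rw [h2 s hq]
      exact k4 s hq hs' z hz hsz
    · exact h4 s hs hq z (k3 hz) hsz

theorem cnd_le_iff {p q : Cnd A} : p ≤ q ↔ q.dom ⊆ p.dom ∧ (∀ s ∈ q.dom, p.val s = q.val s) ∧
    q.pr ⊆ p.pr ∧ ∀ s ∈ p.dom, s ∉ q.dom → ∀ z ∈ q.pr, s ∈ A z.1 → z.2 < p.val s := Iff.rfl

theorem compat {p q : Cnd A} {R : Finset S} (hRp : R ⊆ p.dom) (hRq : R ⊆ q.dom)
    (hR : ∀ s ∈ p.dom, s ∈ q.dom → s ∈ R) (hv : ∀ s ∈ R, p.val s = q.val s)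
    (h1 : ∀ s ∈ p.dom, s ∉ R → ∀ z ∈ q.pr, s ∉ A z.1)
    (h2 : ∀ s ∈ q.dom, s ∉ R → ∀ z ∈ p.pr, s ∉ A z.1) : ∃ r : Cnd A, r ≤ p ∧ r ≤ q := by
  classical
  refine ⟨⟨p.dom ∪ q.dom, fun s => if s ∈ p.dom then p.val s else q.val s, p.pr ∪ q.pr⟩, ?_, ?_⟩
  · refine cnd_le_iff.2 ⟨Finset.subset_union_left, fun s hs => by simp [hs],
      Finset.subset_union_left, ?_⟩
    intro s hs hs' z hz hsz
    have hq : s ∈ q.dom := by
      rcases Finset.mem_union.1 hs with h | h
      · exact absurd h hs'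
      · exact h
    exact absurd hsz (h2 s hq (fun h => hs' (hRp h)) z hz)
  · refine cnd_le_iff.2 ⟨Finset.subset_union_right, ?_, Finset.subset_union_right, ?_⟩
    · intro s hs
      by_cases hp : s ∈ p.dom
      · simp only [hp, if_true]
        exact hv s (hR s hp hs)
      · simp only [hp, if_false]
    · intro s hs hs' z hz hsz
      have hp : s ∈ p.dom := by
        rcases Finset.mem_union.1 hs with h | h
        · exact h
        · exact absurd h hs'
      exact absurd hsz (h1 s hp (fun h => hs' (hRq h)) z hz)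

theorem ph {I Y : Type} [Countable Y] (f : I → Y) (J : Set I) (hJ : ¬ J.Countable) :
    ∃ y, ¬ (J ∩ f ⁻¹' {y}).Countable := by
  by_contra h
  push Not at h
  apply hJ
  refine (countable_iUnion h).mono ?_
  intro x hx
  exact mem_iUnion.2 ⟨f x, hx, rfl⟩

theorem ccc (hc : ∀ i, (A i).Countable) (had : ∀ i j, i ≠ j → (A i ∩ A j).Finite) :
    IsCCC (Cnd A) := by
  classical
  intro J hJ
  by_contra hunc
  -- first root
  obtain ⟨J1, R, hJ1, hJ1u, hR, hRd⟩ := Pool.Agent.H151.delta_system (fun p : Cnd A => p.dom) J hunc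
  obtain ⟨w, hw⟩ := ph (fun p : Cnd A => fun s : R => p.val s) J1 hJ1u
  obtain ⟨J2, Q, hJ2, hJ2u, hQ, hQd⟩ := Pool.Agent.H151.delta_system
    (fun p : Cnd A => p.pr.image Prod.fst) _ hw
  obtain ⟨k, hk⟩ := ph (fun p : Cnd A => p.dom.card) J2 hJ2u
  set J3 := J2 ∩ (fun p : Cnd A => p.dom.card) ⁻¹' {k} with hJ3
  have h31 : ∀ p ∈ J3, p ∈ J1 := fun p hp => (hJ2 hp.1).1
  have hval : ∀ p ∈ J3, ∀ q ∈ J3, ∀ s ∈ R, p.val s = q.val s := by
    intro p hp q hq s hs
    have e1 := congrFun (show (fun s : R => p.val s) = w from (hJ2 hp.1).2) ⟨s, hs⟩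
    have e2 := congrFun (show (fun s : R => q.val s) = w from (hJ2 hq.1).2) ⟨s, hs⟩
    exact e1.trans e2.symm
  -- countable exclusion
  have hex : ∀ C : Set S, C.Countable → {q | q ∈ J3 ∧ ∃ s ∈ q.dom, s ∉ R ∧ s ∈ C}.Countable := by
    intro C hC
    have h1 : ∀ s ∈ C, {q | q ∈ J3 ∧ s ∈ q.dom ∧ s ∉ R}.Countable := by
      intro s _
      refine Set.Subsingleton.countable ?_
      rintro p ⟨hp, hsp, hsR⟩ q ⟨hq, hsq, _⟩
      by_contra hne
      exact hsR (hRd p (h31 p hp) q (h31 q hq) hne s hsp hsq)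
    refine (hC.biUnion h1).mono ?_
    rintro q ⟨hq, s, hs, hsR, hsC⟩
    exact mem_biUnion hsC ⟨hq, hs, hsR⟩
  -- the points of the root sets
  let UQ : Set S := ⋃ i ∈ Q, A i
  have hUQ : UQ.Countable := (Finset.countable_toSet Q).biUnion fun i _ => hc i
  let J4 : Set (Cnd A) := J3 \ {q | q ∈ J3 ∧ ∃ s ∈ q.dom, s ∉ R ∧ s ∈ UQ}
  have hJ4u : ¬ J4.Countable := by
    intro h
    apply hk
    refine (h.union (hex UQ hUQ)).mono ?_
    intro p hp
    by_cases hp' : p ∈ {q | q ∈ J3 ∧ ∃ s ∈ q.dom, s ∉ R ∧ s ∈ UQ}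
    · exact Or.inr hp'
    · exact Or.inl ⟨hp, hp'⟩
  have hJ4i : J4.Infinite := fun h => hJ4u h.countable
  let e : ℕ ↪ J4 := hJ4i.natEmbedding
  let p : ℕ → Cnd A := fun n => (e n).1
  have hpJ : ∀ n, p n ∈ J4 := fun n => (e n).2
  have hpi : Function.Injective p := fun m n h => e.injective (Subtype.ext h)
  let UP : Set S := ⋃ n, ⋃ z ∈ (p n).pr, A z.1
  have hUP : UP.Countable := countable_iUnion fun n =>
    (Finset.countable_toSet (p n).pr).biUnion fun z _ => hc z.1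
  let J5 : Set (Cnd A) := J4 \ ({q | q ∈ J3 ∧ ∃ s ∈ q.dom, s ∉ R ∧ s ∈ UP} ∪ range p)
  have hJ5i : J5.Infinite := by
    intro h
    apply hJ4u
    refine (h.countable.union ((hex UP hUP).union (countable_range p))).mono ?_
    intro q hq
    by_cases hq' : q ∈ ({q | q ∈ J3 ∧ ∃ s ∈ q.dom, s ∉ R ∧ s ∈ UP} ∪ range p)
    · exact Or.inr hq'
    · exact Or.inl ⟨hq, hq'⟩
  obtain ⟨B, hB, hBc⟩ := hJ5i.exists_subset_card_eq (k + 1)
  -- the finite exceptional set
  let E : Set S := ⋃ a ∈ B, ⋃ b ∈ B, ⋃ i ∈ a.pr.image Prod.fst, ⋃ j ∈ b.pr.image Prod.fst,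
    ⋃ (_ : i ≠ j), (A i ∩ A j)
  have hE : E.Finite := by
    refine B.finite_toSet.biUnion fun a _ => B.finite_toSet.biUnion fun b _ => ?_
    refine (Finset.finite_toSet _).biUnion fun i _ => (Finset.finite_toSet _).biUnion fun j _ => ?_
    exact finite_iUnion fun h => had i j h
  have hmeet : ∀ n, ∃ s ∈ (p n).dom, s ∉ R ∧ s ∈ E := by
    intro n
    have h1 : ∀ b ∈ B, ∃ s ∈ (p n).dom, s ∉ R ∧ ∃ z ∈ b.pr, s ∈ A z.1 := by
      intro b hb
      have hb5 := hB hb
      have hb4 : b ∈ J4 := hb5.1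
      by_contra hcon
      push Not at hcon
      have hne : p n ≠ b := fun h => hb5.2 (Or.inr ⟨n, h⟩)
      refine hJ (p n) (hJ1 (h31 _ (hpJ n).1)) b (hJ1 (h31 _ hb4.1)) hne ?_
      refine compat (hR _ (h31 _ (hpJ n).1)) (hR _ (h31 _ hb4.1))
        (fun s hs hs' => hRd _ (h31 _ (hpJ n).1) _ (h31 _ hb4.1) hne s hs hs')
        (hval _ (hpJ n).1 _ hb4.1) (fun s hs hsR z hz => hcon s hs hsR z hz) ?_
      intro s hs hsR z hz hsz
      refine hb5.2 (Or.inl ⟨hb4.1, s, hs, hsR, ?_⟩)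
      exact mem_iUnion.2 ⟨n, mem_iUnion₂.2 ⟨z, hz, hsz⟩⟩
    obtain ⟨b0, hb0⟩ : B.Nonempty := by
      rw [← Finset.card_pos, hBc]
      exact Nat.succ_pos k
    obtain ⟨s0, _, _, z0, _, _⟩ := h1 b0 hb0
    haveI : Nonempty S := ⟨s0⟩
    haveI : Nonempty (ι × ℕ) := ⟨z0⟩
    choose! f hf1 hf2 z hz1 hz2 using h1
    have hcard : (p n).dom.card < B.card := by
      rw [hBc, show (p n).dom.card = k from (hpJ n).1.2]
      exact Nat.lt_succ_self k
    obtain ⟨a, ha, b, hb, hab, hfab⟩ := Finset.exists_ne_map_eq_of_card_lt_of_maps_to hcard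
      (fun b hb => hf1 b hb)
    refine ⟨f a, hf1 a ha, hf2 a ha, ?_⟩
    have hne : (z a).1 ≠ (z b).1 := by
      intro heq
      have hzQ : (z a).1 ∈ Q := by
        refine hQd a (hB ha).1.1.1 b (hB hb).1.1.1 hab _
          (Finset.mem_image_of_mem _ (hz1 a ha)) ?_
        rw [heq]
        exact Finset.mem_image_of_mem _ (hz1 b hb)
      refine (hpJ n).2 ⟨(hpJ n).1, f a, hf1 a ha, hf2 a ha, ?_⟩
      exact mem_iUnion₂.2 ⟨(z a).1, hzQ, hz2 a ha⟩
    refine mem_iUnion₂.2 ⟨a, ha, mem_iUnion₂.2 ⟨b, hb, mem_iUnion₂.2 ⟨(z a).1,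
      Finset.mem_image_of_mem _ (hz1 a ha), mem_iUnion₂.2 ⟨(z b).1,
      Finset.mem_image_of_mem _ (hz1 b hb), mem_iUnion.2 ⟨hne, hz2 a ha, ?_⟩⟩⟩⟩⟩
    rw [hfab]
    exact hz2 b hb
  choose s hs1 hs2 hs3 using hmeet
  have hsi : Function.Injective s := by
    intro m n hmn
    by_contra hne
    refine hs2 m (hRd _ (h31 _ (hpJ m).1) _ (h31 _ (hpJ n).1) (fun h => hne (hpi h)) _ (hs1 m) ?_)
    rw [hmn]
    exact hs1 n
  exact (infinite_of_injective_forall_mem hsi hs3) hE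

/-- If there are countably many functions such that any finitely many members of the family have a
common one of them that is finite-to-one on each, then the poset is ccc. -/
theorem ccc_of_cofinal {T : Type} [Countable T] (G : T → S → ℕ)
    (hG : ∀ F : Finset ι, ∃ t, ∀ i ∈ F, ∀ n, {s | s ∈ A i ∧ G t s ≤ n}.Finite) :
    IsCCC (Cnd A) := by
  classical
  intro J hJ
  by_contra hunc
  choose t ht using fun p : Cnd A => hG (p.pr.image Prod.fst)
  obtain ⟨t0, ht0⟩ := ph t J hunc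
  obtain ⟨K, hK⟩ := ph (fun p : Cnd A => p.dom.sup (G t0)) _ ht0
  have hfin : ∀ p : Cnd A, t p = t0 → {s | ∃ z ∈ p.pr, s ∈ A z.1 ∧ G t0 s ≤ K}.Finite := by
    intro p hp
    refine (p.pr.finite_toSet.biUnion (t := fun z => {s | s ∈ A z.1 ∧ G t0 s ≤ K}) ?_).subset ?_
    · intro z hz
      have := ht p z.1 (Finset.mem_image_of_mem _ hz) K
      rw [hp] at this
      exact this
    · rintro s ⟨z, hz, hs⟩
      exact mem_biUnion hz hs
  let F : Cnd A → Finset S := fun p => p.dom ∪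
    (if h : {s | ∃ z ∈ p.pr, s ∈ A z.1 ∧ G t0 s ≤ K}.Finite then h.toFinset else ∅)
  obtain ⟨J1, R, hJ1, hJ1u, hR, hRd⟩ := Pool.Agent.H151.delta_system F _ hK
  obtain ⟨w, hw⟩ := ph (fun p : Cnd A => fun s : R =>
    (if s.1 ∈ p.dom then some (p.val s) else none)) J1 hJ1u
  have hnt : ∃ p ∈ J1 ∩ (fun p : Cnd A => fun s : R =>
      (if s.1 ∈ p.dom then some (p.val s) else none)) ⁻¹' {w}, ∃ q ∈ J1 ∩ (fun p : Cnd A =>
      fun s : R => (if s.1 ∈ p.dom then some (p.val s) else none)) ⁻¹' {w}, p ≠ q := by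
    by_contra hcon
    push Not at hcon
    exact hw (Set.Subsingleton.countable fun p hp q hq => hcon p hp q hq)
  obtain ⟨p, hp, q, hq, hne⟩ := hnt
  have key : ∀ a ∈ J1, ∀ b ∈ J1, a ≠ b → ∀ s ∈ a.dom, ∀ z ∈ b.pr, s ∈ A z.1 → s ∈ R := by
    intro a ha b hb hab s hs z hz hsz
    refine hRd a ha b hb hab s (Finset.mem_union_left _ hs) (Finset.mem_union_right _ ?_)
    have h1 : G t0 s ≤ K := by
      have h2 : a.dom.sup (G t0) = K := (hJ1 ha).2
      rw [← h2]
      exact Finset.le_sup (f := G t0) hs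
    have h3 := hfin b (hJ1 hb).1.2
    rw [dif_pos h3, Set.Finite.mem_toFinset]
    exact ⟨z, hz, hsz, h1⟩
  have hval : ∀ s ∈ R, (if s ∈ p.dom then some (p.val s) else none) =
      (if s ∈ q.dom then some (q.val s) else none) := by
    intro s hs
    have e1 := congrFun (show (fun s : R => (if s.1 ∈ p.dom then some (p.val s) else none)) = w
      from hp.2) ⟨s, hs⟩
    have e2 := congrFun (show (fun s : R => (if s.1 ∈ q.dom then some (q.val s) else none)) = w
      from hq.2) ⟨s, hs⟩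
    exact e1.trans e2.symm
  have hiff : ∀ s ∈ R, (s ∈ p.dom ↔ s ∈ q.dom) := by
    intro s hs
    have := hval s hs
    by_cases h1 : s ∈ p.dom <;> by_cases h2 : s ∈ q.dom <;> simp [h1, h2] at this ⊢
  refine hJ p (hJ1 hp.1).1.1 q (hJ1 hq.1).1.1 hne (compat (R := p.dom ∩ R)
    Finset.inter_subset_left ?_ ?_ ?_ ?_ ?_)
  · intro s hs
    rw [Finset.mem_inter] at hs
    exact (hiff s hs.2).1 hs.1
  · intro s hs hs'
    exact Finset.mem_inter.2 ⟨hs, hRd p hp.1 q hq.1 hne s (Finset.mem_union_left _ hs)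
      (Finset.mem_union_left _ hs')⟩
  · intro s hs
    rw [Finset.mem_inter] at hs
    have := hval s hs.2
    simpa [hs.1, (hiff s hs.2).1 hs.1] using this
  · intro s hs hsR z hz hsz
    exact hsR (Finset.mem_inter.2 ⟨hs, key p hp.1 q hq.1 hne s hs z hz hsz⟩)
  · intro s hs hsR z hz hsz
    have h1 := key q hq.1 p hp.1 (Ne.symm hne) s hs z hz hsz
    exact hsR (Finset.mem_inter.2 ⟨(hiff s h1).2 hs, h1⟩)

/-- Under Martin's axiom, if the poset is ccc, there is a function which is finite-to-one on each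
member of the family. -/
theorem exists_finite_to_one_of_ccc {κ : Cardinal.{0}} (hMA : MartinAxiomCard κ) (hκ : ℵ₀ ≤ κ)
    (hS : #S ≤ κ) (hι : #ι ≤ κ) (hccc : IsCCC (Cnd A)) :
    ∃ g : S → ℕ, ∀ i n, {s | s ∈ A i ∧ g s ≤ n}.Finite := by
  classical
  haveI : Nonempty (Cnd A) := ⟨⟨∅, fun _ => 0, ∅⟩⟩
  let D : S ⊕ (ι × ℕ) → Set (Cnd A) := fun x => Sum.elim (fun s => {p | s ∈ p.dom})
    (fun z => {p | z ∈ p.pr}) x
  obtain ⟨G, _, hGu, hGd, hGD⟩ := hMA (Cnd A) hccc (range D) (by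
      refine mk_range_le.trans ?_
      rw [mk_sum, mk_prod, Cardinal.lift_id, Cardinal.lift_id, Cardinal.lift_id, Cardinal.lift_id,
        mk_nat]
      exact add_le_of_le hκ hS (mul_le_of_le hκ hι hκ)) (by
    rintro _ ⟨x, rfl⟩ p
    rcases x with s | z
    · by_cases hs : s ∈ p.dom
      · exact ⟨p, hs, le_rfl⟩
      · refine ⟨⟨insert s p.dom, Function.update p.val s (p.pr.sup Prod.snd + 1), p.pr⟩,
          Finset.mem_insert_self _ _, ?_⟩
        refine cnd_le_iff.2 ⟨Finset.subset_insert _ _, ?_, Finset.Subset.refl _, ?_⟩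
        · intro t ht
          have : t ≠ s := fun h => hs (h ▸ ht)
          simp [this]
        · intro t ht ht' z hz _
          have : t = s := by
            rcases Finset.mem_insert.1 ht with h | h
            · exact h
            · exact absurd h ht'
          subst this
          simp only [Function.update_self]
          exact Nat.lt_succ_of_le (Finset.le_sup (f := Prod.snd) hz)
    · refine ⟨⟨p.dom, p.val, insert z p.pr⟩, Finset.mem_insert_self _ _, ?_⟩
      exact cnd_le_iff.2 ⟨Finset.Subset.refl _, fun _ _ => rfl, Finset.subset_insert _ _,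
        fun t ht ht' => absurd ht ht'⟩)
  have h1 : ∀ s : S, ∃ p ∈ G, s ∈ p.dom := by
    intro s
    obtain ⟨p, hp, hps⟩ := hGD (D (Sum.inl s)) ⟨_, rfl⟩
    exact ⟨p, hp, hps⟩
  choose q hq hqs using h1
  refine ⟨fun s => (q s).val s, fun i n => ?_⟩
  obtain ⟨p, hp, hpz⟩ := hGD (D (Sum.inr (i, n))) ⟨_, rfl⟩
  refine p.dom.finite_toSet.subset ?_
  rintro s ⟨hs, hsn⟩
  by_contra hsd
  obtain ⟨r, _, hr1, hr2⟩ := hGd p hp (q s) (hq s)
  have e1 : r.val s = (q s).val s := hr2.2.1 s (hqs s)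
  have e2 := hr1.2.2.2 s (hr2.1 (hqs s)) hsd (i, n) hpz hs
  rw [e1] at e2
  exact absurd e2 (not_lt.2 hsn)

/-- Under Martin's axiom an almost disjoint family of countable sets admits a function which is
finite-to-one on each of its members. -/
theorem exists_finite_to_one {κ : Cardinal.{0}} (hMA : MartinAxiomCard κ) (hκ : ℵ₀ ≤ κ)
    (hS : #S ≤ κ) (hι : #ι ≤ κ) (hc : ∀ i, (A i).Countable)
    (had : ∀ i j, i ≠ j → (A i ∩ A j).Finite) :
    ∃ g : S → ℕ, ∀ i n, {s | s ∈ A i ∧ g s ≤ n}.Finite :=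
  exists_finite_to_one_of_ccc hMA hκ hS hι (ccc hc had)

/-- `X` is locally countable, locally compact and scattered of countable height: there is a rank
function with values in a countable well-ordered set such that every point has a countable compact
open neighbourhood all of whose other points have smaller rank. -/
def LocallyCountableCountableHeight (X : Type) [TopologicalSpace X] : Prop :=
  ∃ (T : Type) (_ : LinearOrder T) (r : X → T), WellFoundedLT T ∧ Countable T ∧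
    ∀ x : X, ∃ U : Set X, IsOpen U ∧ IsCompact U ∧ x ∈ U ∧ U.Countable ∧
      ∀ y ∈ U, y ≠ x → r y < r x

theorem rank_step {T : Type} [LinearOrder T] {κ : Cardinal.{0}}
    (hMA : MartinAxiomCard κ) (hκ : ℵ₀ ≤ κ) {X : Type}
    [TopologicalSpace X] [T2Space X] (hX : #X ≤ κ) (r : X → T) (U : X → Set X)
    (hUo : ∀ x, IsOpen (U x)) (hUc : ∀ x, IsCompact (U x)) (hxU : ∀ x, x ∈ U x)
    (hUct : ∀ x, (U x).Countable) (hUr : ∀ x, ∀ y ∈ U x, y ≠ x → r y < r x) (t : T)
    (h : ∃ g : X → ℕ, ∀ x, r x < t → ∀ n, {s | s ∈ U x ∧ g s ≤ n}.Finite) :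
    ∃ g : X → ℕ, ∀ x, r x ≤ t → ∀ n, {s | s ∈ U x ∧ g s ≤ n}.Finite := by
  classical
  obtain ⟨g, hg⟩ := h
  have he : ∀ x, ∃ e : X → ℕ, InjOn e (U x) := fun x => countable_iff_exists_injOn.1 (hUct x)
  choose e he using he
  let H : X → Set X := fun x =>
    {s | s ∈ U x ∧ s ≠ x ∧ ∀ y ∈ U x, y ≠ x → s ∈ U y → g s ≤ e x y}
  have hH1 : ∀ x, r x ≤ t → ∀ y ∈ U x, y ≠ x → (H x ∩ U y).Finite := by
    intro x hx y hy hne
    have h1 := hUr x y hy hne
    refine (hg y (h1.trans_le hx) (e x y)).subset ?_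
    rintro s ⟨hs, hsy⟩
    exact ⟨hsy, hs.2.2 y hy hne hsy⟩
  obtain ⟨g', hg'⟩ := exists_finite_to_one (S := X) (ι := {x : X // r x = t})
    (A := fun x => H x.1) hMA hκ hX ((mk_subtype_le _).trans hX)
    (fun x => (hUct x.1).mono fun s hs => hs.1) (by
      rintro ⟨x, hx⟩ ⟨x', hx'⟩ hne
      have hxx' : x ≠ x' := fun h => hne (Subtype.ext h)
      have hxU' : x ∉ U x' := by
        intro h
        have := hUr x' x h hxx'
        rw [hx, hx'] at this
        exact lt_irrefl _ this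
      have hcomp : IsCompact (U x ∩ U x') := (hUc x).inter_right (hUc x').isClosed
      obtain ⟨t, ht⟩ := hcomp.elim_finite_subcover
        (fun y : {y : X // y ∈ U x ∧ y ≠ x} => U y.1) (fun y => hUo y.1) (by
          rintro z ⟨hz, hz'⟩
          have hzx : z ≠ x := fun h => hxU' (h ▸ hz')
          exact mem_iUnion.2 ⟨⟨z, hz, hzx⟩, hxU z⟩)
      refine (t.finite_toSet.biUnion fun y _ => hH1 x hx.le y.1 y.2.1 y.2.2).subset ?_
      rintro s ⟨hs, hs'⟩
      obtain ⟨y, hy, hsy⟩ := mem_iUnion₂.1 (ht ⟨hs.1, hs'.1⟩)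
      exact mem_biUnion hy ⟨hs, hsy⟩)
  refine ⟨fun s => max (g s) (g' s), fun x hx n => ?_⟩
  rcases lt_or_ge (r x) t with hlt | hge
  · refine (hg x hlt n).subset ?_
    rintro s ⟨hs, hsn⟩
    exact ⟨hs, (le_max_left _ _).trans hsn⟩
  · have hxr : r x = t := le_antisymm hx hge
    have hfin1 : {y | y ∈ U x ∧ e x y ≤ n}.Finite := by
      refine Set.Finite.of_finite_image ((finite_Iic n).subset ?_)
        ((he x).mono fun y hy => hy.1)
      rintro _ ⟨y, hy, rfl⟩
      exact hy.2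
    have hfin2 : (⋃ y ∈ {y | y ∈ U x ∧ e x y ≤ n}, {s | y ≠ x ∧ s ∈ U y ∧ g s ≤ n}).Finite := by
      refine hfin1.biUnion ?_
      rintro y ⟨hy, _⟩
      by_cases hyx : y = x
      · refine Set.finite_empty.subset ?_
        rintro s ⟨h, _⟩
        exact absurd hyx h
      · have := hUr x y hy hyx
        refine (hg y (this.trans_le hx) n).subset ?_
        rintro s ⟨_, h1, h2⟩
        exact ⟨h1, h2⟩
    refine (((finite_singleton x).union (hg' ⟨x, hxr⟩ n)).union hfin2).subset ?_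
    rintro s ⟨hs, hsn⟩
    have hgn : g s ≤ n := (le_max_left _ _).trans hsn
    have hgn' : g' s ≤ n := (le_max_right _ _).trans hsn
    by_cases hsx : s = x
    · exact Or.inl (Or.inl hsx)
    by_cases hsH : s ∈ H x
    · exact Or.inl (Or.inr ⟨hsH, hgn'⟩)
    · have h2 : ∃ y ∈ U x, y ≠ x ∧ s ∈ U y ∧ e x y < g s := by
        by_contra hcon
        push Not at hcon
        exact hsH ⟨hs, hsx, fun y hy hyx hsy => hcon y hy hyx hsy⟩
      obtain ⟨y, hy, hyx, hsy, hlt⟩ := h2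
      exact Or.inr (mem_biUnion (show y ∈ {y | y ∈ U x ∧ e x y ≤ n} from
        ⟨hy, hlt.le.trans hgn⟩) ⟨hyx, hsy, hgn⟩)

theorem exists_rank_function {T : Type} [LinearOrder T] [WellFoundedLT T] [Countable T]
    {κ : Cardinal.{0}} (hMA : MartinAxiomCard κ) (hκ : ℵ₀ ≤ κ) {X : Type}
    [TopologicalSpace X] [T2Space X] (hX : #X ≤ κ) (r : X → T) (U : X → Set X)
    (hUo : ∀ x, IsOpen (U x)) (hUc : ∀ x, IsCompact (U x)) (hxU : ∀ x, x ∈ U x)
    (hUct : ∀ x, (U x).Countable) (hUr : ∀ x, ∀ y ∈ U x, y ≠ x → r y < r x) :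
    ∀ t : T, ∃ g : X → ℕ, ∀ x, r x ≤ t → ∀ n, {s | s ∈ U x ∧ g s ≤ n}.Finite := by
  classical
  intro t
  induction t using WellFoundedLT.induction with
  | ind t ih =>
    refine rank_step hMA hκ hX r U hUo hUc hxU hUct hUr t ?_
    choose G hG using fun a : {a : T // a < t} => ih a.1 a.2
    obtain ⟨g, hg⟩ : ∃ g : X → ℕ, ∀ (x : {x : X // r x < t}) (n : ℕ),
        {s | s ∈ U x.1 ∧ g s ≤ n}.Finite := by
      by_cases hne : Nonempty {x : X // r x < t}
      · obtain ⟨x0⟩ := hne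
        refine exists_finite_to_one_of_ccc (S := X) (ι := {x : X // r x < t})
          (A := fun x => U x.1) hMA hκ hX ((mk_subtype_le _).trans hX)
          (ccc_of_cofinal G ?_)
        intro F
        obtain ⟨x1, hx1, hmax⟩ := (insert x0 F).exists_max_image (fun x => r x.1)
          (Finset.insert_nonempty _ _)
        exact ⟨⟨r x1.1, x1.2⟩, fun i hi n => hG ⟨r x1.1, x1.2⟩ i.1
          (hmax i (Finset.mem_insert_of_mem hi)) n⟩
      · exact ⟨fun _ => 0, fun x => absurd ⟨x⟩ hne⟩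
    exact ⟨g, fun x hx n => hg ⟨x, hx⟩ n⟩

/-- Under Martin's axiom these spaces are countable unions of closed discrete subspaces. -/
theorem sigma_closed_discrete {κ : Cardinal.{0}} (hMA : MartinAxiomCard κ) (hκ : ℵ₀ ≤ κ)
    {X : Type} [TopologicalSpace X] [T2Space X] (hX : #X ≤ κ)
    (hh : LocallyCountableCountableHeight X) :
    ∃ C : ℕ → Set X, (∀ k, ∀ s ⊆ C k, IsClosed s) ∧ (⋃ k, C k) = Set.univ := by
  classical
  obtain ⟨T, _, r, _, _, hU⟩ := hh
  choose U hUo hUc hxU hUct hUr using hU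
  obtain ⟨g, hg⟩ : ∃ g : X → ℕ, ∀ (x : X) (n : ℕ), {s | s ∈ U x ∧ g s ≤ n}.Finite := by
    by_cases hne : Nonempty X
    · obtain ⟨x0⟩ := hne
      choose G hG using exists_rank_function hMA hκ hX r U hUo hUc hxU hUct hUr
      refine exists_finite_to_one_of_ccc (S := X) (ι := X) (A := U) hMA hκ hX hX
        (ccc_of_cofinal G ?_)
      intro F
      obtain ⟨x1, hx1, hmax⟩ := (insert x0 F).exists_max_image r (Finset.insert_nonempty _ _)
      exact ⟨r x1, fun i hi n => hG (r x1) i (hmax i (Finset.mem_insert_of_mem hi)) n⟩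
    · exact ⟨fun _ => 0, fun x => absurd ⟨x⟩ hne⟩
  refine ⟨fun k => g ⁻¹' {k}, fun k s hs => ?_, ?_⟩
  · rw [← isOpen_compl_iff, isOpen_iff_mem_nhds]
    intro x hx
    have h1 : {z | z ∈ U x ∧ z ∈ s}.Finite :=
      (hg x k).subset fun z hz => ⟨hz.1, (hs hz.2 : g z = k).le⟩
    have h2 : IsOpen (U x \ {z | z ∈ U x ∧ z ∈ s}) := (hUo x).sdiff h1.isClosed
    refine Filter.mem_of_superset (h2.mem_nhds ⟨hxU x, fun h => hx h.2⟩) ?_
    rintro z ⟨hz1, hz2⟩ hzs
    exact hz2 ⟨hz1, hzs⟩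
  · ext x
    simp

theorem lc_hasPFN {κ : Cardinal.{0}} (hMA : MartinAxiomCard κ) (hκ : ℵ₀ ≤ κ) {X : Type}
    [TopologicalSpace X] [T2Space X] (hX : #X ≤ κ)
    (hh : LocallyCountableCountableHeight X) : HasPFN X := by
  obtain ⟨C, hC, hU⟩ := sigma_closed_discrete hMA hκ hX hh
  exact HasPFN.of_sigma_closed_discrete C hC hU

/-- Finitely many points do not matter. -/
theorem HasPFN.of_compl_finite {X : Type} [TopologicalSpace X] [T1Space X] {F : Set X}
    (hF : F.Finite) (h : HasPFN (Fᶜ : Set X)) : HasPFN X := by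
  classical
  obtain ⟨N, hNo, hNm, hNa, hNf⟩ := h
  refine ⟨fun x n => if hx : x ∈ F then Set.univ else Subtype.val '' N ⟨x, hx⟩ n, ?_, ?_, ?_, ?_⟩
  · intro x n
    by_cases hx : x ∈ F
    · simp [hx]
    · simp only [hx, dif_neg, not_false_eq_true]
      exact (hF.isClosed.isOpen_compl.isOpenEmbedding_subtypeVal.isOpenMap) _ (hNo _ _)
  · intro x n
    by_cases hx : x ∈ F
    · simp [hx]
    · simp only [hx, dif_neg, not_false_eq_true]
      exact ⟨⟨x, hx⟩, hNm _ _, rfl⟩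
  · intro x m n hmn
    by_cases hx : x ∈ F
    · simp [hx]
    · simp only [hx, dif_neg, not_false_eq_true]
      exact image_mono (hNa _ hmn)
  · intro y
    by_cases hy : y ∈ F
    · refine ⟨0, hF.subset ?_⟩
      intro x hx
      by_contra hxF
      simp only [mem_setOf_eq, hxF, dif_neg, not_false_eq_true] at hx
      obtain ⟨z, _, hz⟩ := hx
      exact z.2 (hz ▸ hy)
    · obtain ⟨n, hn⟩ := hNf ⟨y, hy⟩
      refine ⟨n, (hF.union (hn.image Subtype.val)).subset ?_⟩
      intro x hx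
      by_cases hxF : x ∈ F
      · exact Or.inl hxF
      · simp only [mem_setOf_eq, hxF, dif_neg, not_false_eq_true] at hx
        obtain ⟨z, hz, hzy⟩ := hx
        refine Or.inr ⟨⟨x, hxF⟩, ?_, rfl⟩
        have : z = ⟨y, hy⟩ := Subtype.ext hzy
        rw [← this]
        exact hz

/-- Countably many points do not matter in a compact space, if they form a closed set. -/
theorem HasPFN.of_compl_countable {X : Type*} [TopologicalSpace X] [T2Space X] [CompactSpace X]
    {F : Set X} (hF : F.Countable) (hFc : IsClosed F) (h : HasPFN (Fᶜ : Set X)) : HasPFN X := by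
  classical
  obtain ⟨N, hNo, hNm, hNa, hNf⟩ := h
  haveI : Countable F := hF.to_subtype
  -- a continuous map to a metrizable space which is injective on `F`
  have hsep : ∀ a b : F, ∃ f : C(X, ℝ), a ≠ b → f a.1 ≠ f b.1 := by
    intro a b
    by_cases hab : a = b
    · exact ⟨ContinuousMap.const X 0, fun h => absurd hab h⟩
    · obtain ⟨f, h0, h1, _⟩ := exists_continuous_zero_one_of_isClosed
        (isClosed_singleton (x := a.1)) (isClosed_singleton (x := b.1)) (by
          rw [Set.disjoint_singleton]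
          exact fun h => hab (Subtype.ext h))
      refine ⟨f, fun _ => ?_⟩
      rw [h0 rfl, h1 rfl]
      exact zero_ne_one
  choose f hf using hsep
  let Φ : X → (F × F → ℝ) := fun x p => f p.1 p.2 x
  have hΦ : Continuous Φ := continuous_pi fun p => (f p.1 p.2).continuous
  have hΦi : ∀ a ∈ F, ∀ b ∈ F, Φ a = Φ b → a = b := by
    intro a ha b hb hab
    by_contra hne
    exact hf ⟨a, ha⟩ ⟨b, hb⟩ (fun h => hne (congrArg Subtype.val h))
      (congrFun hab (⟨a, ha⟩, ⟨b, hb⟩))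
  letI : MetricSpace (F × F → ℝ) := TopologicalSpace.metrizableSpaceMetric _
  have hD : IsClosed (Φ '' F) := (hFc.isCompact.image hΦ).isClosed
  obtain ⟨e, he⟩ := countable_iff_exists_injOn.1 hF
  let W : X → ℕ → Set X := fun x n => {z | Metric.infDist (Φ z) (Φ '' F) < 1 / ((n : ℝ) + 1)} ∩
    ⋂ a ∈ {a | a ∈ F ∧ e a ≤ n ∧ a ≠ x}, {z | Φ z = Φ a}ᶜ
  have hWo : ∀ x n, IsOpen (W x n) := by
    intro x n
    refine IsOpen.inter ?_ ?_
    · exact isOpen_lt ((Metric.continuous_infDist_pt _).comp hΦ) continuous_const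
    · have hfin : {a | a ∈ F ∧ e a ≤ n ∧ a ≠ x}.Finite := by
        refine Set.Finite.of_finite_image ((finite_Iic n).subset ?_) (he.mono fun a ha => ha.1)
        rintro _ ⟨a, ha, rfl⟩
        exact ha.2.1
      exact hfin.isOpen_biInter fun a _ => (isClosed_eq hΦ continuous_const).isOpen_compl
  have hWm : ∀ x ∈ F, ∀ n, x ∈ W x n := by
    intro x hx n
    refine ⟨?_, ?_⟩
    · rw [mem_setOf_eq, Metric.infDist_zero_of_mem (mem_image_of_mem _ hx)]
      positivity
    · refine mem_iInter₂.2 fun a ha => ?_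
      intro h
      exact ha.2.2 (hΦi x hx a ha.1 h).symm
  have hWa : ∀ x, Antitone (W x) := by
    intro x m n hmn z hz
    refine ⟨?_, ?_⟩
    · have h1 : Metric.infDist (Φ z) (Φ '' F) < 1 / ((n : ℝ) + 1) := hz.1
      have h2 : 1 / ((n : ℝ) + 1) ≤ 1 / ((m : ℝ) + 1) :=
        one_div_le_one_div_of_le (by positivity) (by exact_mod_cast Nat.succ_le_succ hmn)
      exact lt_of_lt_of_le h1 h2
    · refine mem_iInter₂.2 fun a ha => ?_
      exact mem_iInter₂.1 hz.2 a ⟨ha.1, ha.2.1.trans hmn, ha.2.2⟩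
  have hWf : ∀ y, ∃ n, {x | x ∈ F ∧ y ∈ W x n}.Finite := by
    intro y
    by_cases hy : Φ y ∈ Φ '' F
    · obtain ⟨a, ha, hay⟩ := hy
      refine ⟨e a, (finite_singleton a).subset ?_⟩
      rintro x ⟨hx, hyx⟩
      by_contra hne
      exact mem_iInter₂.1 hyx.2 a ⟨ha, le_rfl, fun h => hne h.symm⟩ hay.symm
    · rcases F.eq_empty_or_nonempty with hE | hE
      · refine ⟨0, Set.finite_empty.subset ?_⟩
        rintro x ⟨hx, _⟩
        rw [hE] at hx
        exact hx
      · have hpos := (hD.notMem_iff_infDist_pos (hE.image Φ)).1 hy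
        obtain ⟨n, hn⟩ := exists_nat_one_div_lt hpos
        refine ⟨n, Set.finite_empty.subset ?_⟩
        rintro x ⟨hx, hyx⟩
        exact absurd hyx.1 (not_lt.2 hn.le)
  refine ⟨fun x n => if hx : x ∈ F then W x n else Subtype.val '' N ⟨x, hx⟩ n, ?_, ?_, ?_, ?_⟩
  · intro x n
    by_cases hx : x ∈ F
    · simp only [hx, dif_pos]
      exact hWo x n
    · simp only [hx, dif_neg, not_false_eq_true]
      exact (hFc.isOpen_compl.isOpenEmbedding_subtypeVal.isOpenMap) _ (hNo _ _)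
  · intro x n
    by_cases hx : x ∈ F
    · simp only [hx, dif_pos]
      exact hWm x hx n
    · simp only [hx, dif_neg, not_false_eq_true]
      exact ⟨⟨x, hx⟩, hNm _ _, rfl⟩
  · intro x m n hmn
    by_cases hx : x ∈ F
    · simp only [hx, dif_pos]
      exact hWa x hmn
    · simp only [hx, dif_neg, not_false_eq_true]
      exact image_mono (hNa _ hmn)
  · intro y
    obtain ⟨m, hm⟩ := hWf y
    by_cases hy : y ∈ F
    · refine ⟨m, hm.subset ?_⟩
      intro x hx
      by_cases hxF : x ∈ F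
      · simp only [mem_setOf_eq, hxF, dif_pos] at hx
        exact ⟨hxF, hx⟩
      · simp only [mem_setOf_eq, hxF, dif_neg, not_false_eq_true] at hx
        obtain ⟨z, _, hz⟩ := hx
        exact absurd (hz ▸ hy) z.2
    · obtain ⟨n, hn⟩ := hNf ⟨y, hy⟩
      refine ⟨max m n, (hm.union (hn.image Subtype.val)).subset ?_⟩
      intro x hx
      by_cases hxF : x ∈ F
      · simp only [mem_setOf_eq, hxF, dif_pos] at hx
        exact Or.inl ⟨hxF, hWa x (le_max_left m n) hx⟩
      · simp only [mem_setOf_eq, hxF, dif_neg, not_false_eq_true] at hx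
        obtain ⟨z, hz, hzy⟩ := hx
        refine Or.inr ⟨⟨x, hxF⟩, ?_, rfl⟩
        have hzy' : z = ⟨y, hy⟩ := Subtype.ext hzy
        have := hNa ⟨x, hxF⟩ (le_max_right m n) hz
        rw [hzy'] at this
        exact this

end Pool.Agent.TH785.DP
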