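import Mathlib

/-!
# Products of `Δ`-spaces, one factor with point-finite neighbourhood assignments
-/

set_option autoImplicit false

namespace Pool.Agent.TH785.DP

open Set Topology

universe u v w

/-- `X` is a `Δ`-space: every decreasing sequence of sets with empty intersection expands to a
decreasing sequence of open sets with empty intersection. -/
def IsDelta (X : Type u) [TopologicalSpace X] : Prop :=
  ∀ D : ℕ → Set X, Antitone D → (⋂ n, D n) = ∅ →
    ∃ V : ℕ → Set X, Antitone V ∧ (∀ n, IsOpen (V n)) ∧ (∀ n, D n ⊆ V n) ∧ (⋂ n, V n) = ∅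

/-- The class `𝒫`: every point `x` has a decreasing sequence `N x n` of open neighbourhoods such
that for every point `y` there is an `n` with `y ∈ N x n` for only finitely many `x`. -/
def HasPFN (X : Type u) [TopologicalSpace X] : Prop :=
  ∃ N : X → ℕ → Set X, (∀ x n, IsOpen (N x n)) ∧ (∀ x n, x ∈ N x n) ∧ (∀ x, Antitone (N x)) ∧
    ∀ y, ∃ n, {x | y ∈ N x n}.Finite

/-- **The product theorem.** -/
theorem HasPFN.prod_isDelta {X : Type u} {Y : Type v} [TopologicalSpace X] [TopologicalSpace Y]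
    (hX : HasPFN X) (hY : IsDelta Y) : IsDelta (X × Y) := by
  obtain ⟨N, hNo, hNm, hNa, hNf⟩ := hX
  intro D hD hDe
  have h1 : ∀ x : X, ∃ V : ℕ → Set Y, Antitone V ∧ (∀ n, IsOpen (V n)) ∧
      (∀ n, {y | (x, y) ∈ D n} ⊆ V n) ∧ (⋂ n, V n) = ∅ := by
    intro x
    refine hY (fun n => {y | (x, y) ∈ D n}) (fun m n hmn y hy => hD hmn hy) ?_
    rw [eq_empty_iff_forall_notMem]
    intro y hy
    have : (x, y) ∈ ⋂ n, D n := mem_iInter.2 fun n => mem_iInter.1 hy n
    rw [hDe] at this
    exact this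
  choose V hVa hVo hVs hVe using h1
  refine ⟨fun n => ⋃ x, N x n ×ˢ V x n, ?_, ?_, ?_, ?_⟩
  · intro m n hmn
    exact iUnion_mono fun x => prod_mono (hNa x hmn) (hVa x hmn)
  · intro n
    exact isOpen_iUnion fun x => (hNo x n).prod (hVo x n)
  · rintro n ⟨x, y⟩ hxy
    exact mem_iUnion.2 ⟨x, hNm x n, hVs x n hxy⟩
  · rw [eq_empty_iff_forall_notMem]
    rintro ⟨a, y⟩ hay
    obtain ⟨n₀, hfin⟩ := hNf a
    have h2 : ∀ x : X, ∃ k, y ∉ V x k := by
      intro x
      by_contra hcon
      push Not at hcon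
      have : y ∈ ⋂ n, V x n := mem_iInter.2 hcon
      rw [hVe x] at this
      exact this
    choose k hk using h2
    obtain ⟨b, hb⟩ := (hfin.image k).bddAbove
    have h3 := mem_iInter.1 hay (max n₀ b)
    obtain ⟨x, hx1, hx2⟩ := mem_iUnion.1 h3
    have hxM : x ∈ {x | a ∈ N x n₀} := hNa x (le_max_left n₀ b) hx1
    exact hk x (hVa x ((hb (mem_image_of_mem k hxM)).trans (le_max_right n₀ b)) hx2)

theorem HasPFN.isDelta {X : Type u} [TopologicalSpace X] (hX : HasPFN X) : IsDelta X := by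
  obtain ⟨N, hNo, hNm, hNa, hNf⟩ := hX
  intro D hD hDe
  refine ⟨fun n => ⋃ x ∈ D n, N x n, ?_, ?_, ?_, ?_⟩
  · intro m n hmn
    refine iUnion₂_subset fun x hx => ?_
    exact (hNa x hmn).trans (subset_iUnion₂_of_subset x (hD hmn hx) (Subset.refl _))
  · intro n
    exact isOpen_biUnion fun x _ => hNo x n
  · intro n x hx
    exact mem_iUnion₂.2 ⟨x, hx, hNm x n⟩
  · rw [eq_empty_iff_forall_notMem]
    intro a ha
    obtain ⟨n₀, hfin⟩ := hNf a
    have h2 : ∀ x : X, ∃ k, x ∉ D k := by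
      intro x
      by_contra hcon
      push Not at hcon
      have : x ∈ ⋂ n, D n := mem_iInter.2 hcon
      rw [hDe] at this
      exact this
    choose k hk using h2
    obtain ⟨b, hb⟩ := (hfin.image k).bddAbove
    have h3 := mem_iInter.1 ha (max n₀ b)
    obtain ⟨x, hx1, hx2⟩ := mem_iUnion₂.1 h3
    have hxM : x ∈ {x | a ∈ N x n₀} := hNa x (le_max_left n₀ b) hx2
    exact hk x (hD ((hb (mem_image_of_mem k hxM)).trans (le_max_right n₀ b)) hx1)

/-- The class is closed under continuous finite-to-one preimages, in particular under subspaces. -/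
theorem HasPFN.of_finite_fibers {X : Type u} {Y : Type v} [TopologicalSpace X]
    [TopologicalSpace Y] (hX : HasPFN X) (f : Y → X) (hf : Continuous f)
    (hfin : ∀ x, (f ⁻¹' {x}).Finite) : HasPFN Y := by
  obtain ⟨N, hNo, hNm, hNa, hNf⟩ := hX
  refine ⟨fun y n => f ⁻¹' (N (f y) n), fun y n => (hNo _ n).preimage hf, fun y n => hNm _ n,
    fun y m n hmn => preimage_mono (hNa _ hmn), fun y => ?_⟩
  obtain ⟨n, hn⟩ := hNf (f y)
  refine ⟨n, ?_⟩
  have : {y' | y ∈ f ⁻¹' (N (f y') n)} = ⋃ x ∈ {x | f y ∈ N x n}, f ⁻¹' {x} := by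
    ext y'
    simp
  rw [this]
  exact hn.biUnion fun x _ => hfin x

theorem HasPFN.prod {X : Type u} {Y : Type v} [TopologicalSpace X] [TopologicalSpace Y]
    (hX : HasPFN X) (hY : HasPFN Y) : HasPFN (X × Y) := by
  obtain ⟨N, hNo, hNm, hNa, hNf⟩ := hX
  obtain ⟨M, hMo, hMm, hMa, hMf⟩ := hY
  refine ⟨fun p n => N p.1 n ×ˢ M p.2 n, fun p n => (hNo _ n).prod (hMo _ n),
    fun p n => ⟨hNm _ n, hMm _ n⟩, fun p m n hmn => prod_mono (hNa _ hmn) (hMa _ hmn), ?_⟩
  rintro ⟨x, y⟩
  obtain ⟨n, hn⟩ := hNf x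
  obtain ⟨m, hm⟩ := hMf y
  refine ⟨max n m, (hn.prod hm).subset ?_⟩
  rintro ⟨a, b⟩ ⟨h1, h2⟩
  exact ⟨hNa a (le_max_left n m) h1, hMa b (le_max_right n m) h2⟩

theorem HasPFN.sigma {ι : Type w} {X : ι → Type u} [∀ i, TopologicalSpace (X i)]
    (hX : ∀ i, HasPFN (X i)) : HasPFN (Σ i, X i) := by
  choose N hNo hNm hNa hNf using hX
  refine ⟨fun p n => Sigma.mk p.1 '' N p.1 p.2 n, fun p n => isOpenMap_sigmaMk _ (hNo _ _ n),
    fun p n => ⟨p.2, hNm _ _ n, rfl⟩, fun p m n hmn => image_mono (hNa _ _ hmn), ?_⟩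
  rintro ⟨i, y⟩
  obtain ⟨n, hn⟩ := hNf i y
  refine ⟨n, (hn.image (Sigma.mk i)).subset ?_⟩
  rintro ⟨j, x⟩ ⟨z, hz, he⟩
  obtain ⟨rfl, h2⟩ := Sigma.mk.inj_iff.1 he
  have h3 := eq_of_heq h2
  subst h3
  exact ⟨x, hz, rfl⟩

/-- A closed `G_δ`-set and its complement. -/
theorem HasPFN.of_closed_gdelta {X : Type u} [TopologicalSpace X] (F : Set X) (hF : IsClosed F)
    (G : ℕ → Set X) (hGo : ∀ n, IsOpen (G n)) (hGa : Antitone G) (hG : (⋂ n, G n) = F)
    (h1 : HasPFN F) (h2 : HasPFN (Fᶜ : Set X)) : HasPFN X := by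
  classical
  obtain ⟨N, hNo, hNm, hNa, hNf⟩ := h1
  obtain ⟨M, hMo, hMm, hMa, hMf⟩ := h2
  have hFG : ∀ n, F ⊆ G n := fun n => by rw [← hG]; exact iInter_subset _ n
  refine ⟨fun x n => if h : x ∈ F then (((↑) '' (N ⟨x, h⟩ n)) ∪ Fᶜ) ∩ G n
    else (↑) '' (M ⟨x, h⟩ n), ?_, ?_, ?_, ?_⟩
  · intro x n
    by_cases h : x ∈ F
    · simp only [h, dif_pos]
      refine IsOpen.inter ?_ (hGo n)
      obtain ⟨O, hO, hOe⟩ := isOpen_induced_iff.1 (hNo ⟨x, h⟩ n)
      have : ((↑) '' (N ⟨x, h⟩ n) : Set X) ∪ Fᶜ = O ∪ Fᶜ := by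
        rw [← hOe, Subtype.image_preimage_coe]
        ext z
        by_cases hz : z ∈ F <;> simp [hz]
      rw [this]
      exact hO.union hF.isOpen_compl
    · simp only [h, dif_neg, not_false_eq_true]
      exact hF.isOpen_compl.isOpenMap_subtype_val _ (hMo _ n)
  · intro x n
    by_cases h : x ∈ F
    · simp only [h, dif_pos]
      exact ⟨Or.inl ⟨⟨x, h⟩, hNm _ n, rfl⟩, hFG n h⟩
    · simp only [h, dif_neg, not_false_eq_true]
      exact ⟨⟨x, h⟩, hMm _ n, rfl⟩
  · intro x m n hmn
    by_cases h : x ∈ F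
    · simp only [h, dif_pos]
      exact inter_subset_inter (union_subset_union_left _ (image_mono (hNa _ hmn))) (hGa hmn)
    · simp only [h, dif_neg, not_false_eq_true]
      exact image_mono (hMa _ hmn)
  · intro y
    by_cases hy : y ∈ F
    · obtain ⟨n, hn⟩ := hNf ⟨y, hy⟩
      refine ⟨n, (hn.image Subtype.val).subset ?_⟩
      intro x hx
      rw [mem_setOf_eq] at hx
      by_cases h : x ∈ F
      · simp only [h, dif_pos] at hx
        rcases hx.1 with ⟨z, hz, he⟩ | hx'
        · refine ⟨⟨x, h⟩, ?_, rfl⟩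
          have : z = ⟨y, hy⟩ := Subtype.ext he
          rw [← this]
          exact hz
        · exact absurd hy hx'
      · simp only [h, dif_neg, not_false_eq_true] at hx
        obtain ⟨z, _, he⟩ := hx
        exact absurd (he ▸ hy) z.2
    · obtain ⟨n, hn⟩ := hMf ⟨y, hy⟩
      have h3 : ∃ m, y ∉ G m := by
        by_contra hcon
        push Not at hcon
        have : y ∈ ⋂ n, G n := mem_iInter.2 hcon
        rw [hG] at this
        exact hy this
      obtain ⟨m, hm⟩ := h3
      refine ⟨max n m, (hn.image Subtype.val).subset ?_⟩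
      intro x hx
      rw [mem_setOf_eq] at hx
      by_cases h : x ∈ F
      · simp only [h, dif_pos] at hx
        exact absurd (hGa (le_max_right n m) hx.2) hm
      · simp only [h, dif_neg, not_false_eq_true] at hx
        obtain ⟨z, hz, he⟩ := hx
        refine ⟨⟨x, h⟩, ?_, rfl⟩
        have : z = ⟨y, hy⟩ := Subtype.ext he
        rw [← this]
        exact hMa _ (le_max_left n m) hz

/-- A closed retract and its complement. -/
theorem HasPFN.of_retract {X : Type u} [TopologicalSpace X] (F : Set X) (hF : IsClosed F)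
    (r : X → F) (hr : Continuous r) (hrF : ∀ x : F, r x = x)
    (h1 : HasPFN F) (h2 : HasPFN (Fᶜ : Set X)) : HasPFN X := by
  classical
  obtain ⟨N, hNo, hNm, hNa, hNf⟩ := h1
  obtain ⟨M, hMo, hMm, hMa, hMf⟩ := h2
  refine ⟨fun x n => if h : x ∈ F then r ⁻¹' (N ⟨x, h⟩ n)
    else (↑) '' (M ⟨x, h⟩ n), ?_, ?_, ?_, ?_⟩
  · intro x n
    by_cases h : x ∈ F
    · simp only [h, dif_pos]
      exact (hNo _ n).preimage hr
    · simp only [h, dif_neg, not_false_eq_true]
      exact hF.isOpen_compl.isOpenMap_subtype_val _ (hMo _ n)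
  · intro x n
    by_cases h : x ∈ F
    · simp only [h, dif_pos]
      have := hrF ⟨x, h⟩
      simp only [mem_preimage]
      rw [this]
      exact hNm _ n
    · simp only [h, dif_neg, not_false_eq_true]
      exact ⟨⟨x, h⟩, hMm _ n, rfl⟩
  · intro x m n hmn
    by_cases h : x ∈ F
    · simp only [h, dif_pos]
      exact preimage_mono (hNa _ hmn)
    · simp only [h, dif_neg, not_false_eq_true]
      exact image_mono (hMa _ hmn)
  · intro y
    obtain ⟨n, hn⟩ := hNf (r y)
    have key : ∃ m, {x : X | x ∉ F ∧ ∃ h : x ∉ F, y ∈ (↑) '' (M ⟨x, h⟩ m)}.Finite := by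
      by_cases hy : y ∈ F
      · refine ⟨0, Set.Finite.subset (Set.finite_empty) ?_⟩
        rintro x ⟨_, h, z, _, he⟩
        exact absurd (he ▸ hy) z.2
      · obtain ⟨m, hm⟩ := hMf ⟨y, hy⟩
        refine ⟨m, (hm.image Subtype.val).subset ?_⟩
        rintro x ⟨_, h, z, hz, he⟩
        refine ⟨⟨x, h⟩, ?_, rfl⟩
        have : z = ⟨y, hy⟩ := Subtype.ext he
        rw [← this]
        exact hz
    obtain ⟨m, hm⟩ := key
    refine ⟨max n m, ((hn.image Subtype.val).union hm).subset ?_⟩
    intro x hx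
    rw [mem_setOf_eq] at hx
    by_cases h : x ∈ F
    · simp only [h, dif_pos] at hx
      exact Or.inl ⟨⟨x, h⟩, hNa _ (le_max_left n m) hx, rfl⟩
    · simp only [h, dif_neg, not_false_eq_true] at hx
      exact Or.inr ⟨h, h, image_mono (hMa _ (le_max_right n m)) hx⟩

theorem HasPFN.onePoint {X : Type u} [TopologicalSpace X] (hX : HasPFN X) :
    HasPFN (OnePoint X) := by
  obtain ⟨N, hNo, hNm, hNa, hNf⟩ := hX
  let N' : OnePoint X → ℕ → Set (OnePoint X) := fun z n =>
    z.elim univ (fun x => ((↑) : X → OnePoint X) '' N x n)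
  have e1 : ∀ n, N' OnePoint.infty n = univ := fun n => rfl
  have e2 : ∀ (x : X) n, N' (x : OnePoint X) n = ((↑) : X → OnePoint X) '' N x n :=
    fun x n => rfl
  refine ⟨N', ?_, ?_, ?_, ?_⟩
  · intro z n
    induction z using OnePoint.rec with
    | infty => rw [e1]; exact isOpen_univ
    | coe x => rw [e2]; exact OnePoint.isOpenEmbedding_coe.isOpenMap _ (hNo x n)
  · intro z n
    induction z using OnePoint.rec with
    | infty => rw [e1]; exact mem_univ _
    | coe x => rw [e2]; exact ⟨x, hNm x n, rfl⟩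
  · intro z m n hmn
    induction z using OnePoint.rec with
    | infty => rw [e1, e1]
    | coe x => rw [e2, e2]; exact image_mono (hNa x hmn)
  · intro z
    induction z using OnePoint.rec with
    | infty =>
      refine ⟨0, (finite_singleton OnePoint.infty).subset ?_⟩
      intro y hy
      induction y using OnePoint.rec with
      | infty => rfl
      | coe x =>
        rw [mem_setOf_eq, e2] at hy
        obtain ⟨a, _, ha⟩ := hy
        exact absurd ha (OnePoint.coe_ne_infty a)
    | coe b =>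
      obtain ⟨n, hn⟩ := hNf b
      refine ⟨n, ((finite_singleton OnePoint.infty).union
        (hn.image ((↑) : X → OnePoint X))).subset ?_⟩
      intro y hy
      induction y using OnePoint.rec with
      | infty => exact Or.inl rfl
      | coe x =>
        rw [mem_setOf_eq, e2] at hy
        obtain ⟨a, ha, he⟩ := hy
        have := OnePoint.coe_injective he
        subst this
        exact Or.inr ⟨x, ha, rfl⟩

/-- Countable unions of closed discrete sets. -/
theorem HasPFN.of_sigma_closed_discrete {X : Type u} [TopologicalSpace X] (C : ℕ → Set X)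
    (hC : ∀ k, ∀ s ⊆ C k, IsClosed s) (hU : (⋃ k, C k) = univ) : HasPFN X := by
  refine ⟨fun x n => ((⋃ k ∈ Iic n, (C k \ {x})))ᶜ, ?_, ?_, ?_, ?_⟩
  · intro x n
    rw [isOpen_compl_iff]
    exact (finite_Iic n).isClosed_biUnion fun k _ => hC k _ diff_subset
  · intro x n hx
    simp at hx
  · intro x m n hmn
    refine compl_subset_compl.2 ?_
    exact biUnion_subset_biUnion_left (Iic_subset_Iic.2 hmn)
  · intro y
    have hy : y ∈ ⋃ k, C k := by rw [hU]; exact mem_univ y
    obtain ⟨j, hj⟩ := mem_iUnion.1 hy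
    refine ⟨j, (finite_singleton y).subset ?_⟩
    intro x hx
    by_contra hne
    refine hx ?_
    refine mem_biUnion (mem_Iic.2 (le_refl j)) ⟨hj, ?_⟩
    intro h
    exact hne (by rw [mem_singleton_iff] at h ⊢; exact h.symm)

/-- Points of the Cantor cube with finite support. -/
theorem HasPFN.finite_support (Γ : Type w) :
    HasPFN {x : Γ → Bool // {γ | x γ = true}.Finite} := by
  refine ⟨fun x _ => {y | ∀ γ, x.1 γ = true → y.1 γ = true}, ?_, fun x _ γ h => h,
    fun x m n _ => Subset.refl _, ?_⟩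
  · intro x _
    have : {y : {x : Γ → Bool // {γ | x γ = true}.Finite} | ∀ γ, x.1 γ = true → y.1 γ = true} =
        ⋂ γ ∈ {γ | x.1 γ = true}, {y | y.1 γ = true} := by
      ext y
      simp
    change IsOpen {y : {x : Γ → Bool // {γ | x γ = true}.Finite} |
      ∀ γ, x.1 γ = true → y.1 γ = true}
    rw [this]
    refine x.2.isOpen_biInter fun γ _ => ?_
    have hc : Continuous fun y : {x : Γ → Bool // {γ | x γ = true}.Finite} => y.1 γ :=
      (continuous_apply γ).comp continuous_subtype_val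
    exact (isOpen_discrete ({true} : Set Bool)).preimage hc
  · intro y
    refine ⟨0, ?_⟩
    have hfin : (𝒫 {γ | y.1 γ = true}).Finite := y.2.finite_subsets
    refine Set.Finite.of_finite_image (f := fun x : {x : Γ → Bool // {γ | x γ = true}.Finite} =>
      {γ | x.1 γ = true}) (hfin.subset ?_) ?_
    · rintro s ⟨x, hx, rfl⟩ γ hγ
      exact hx γ hγ
    · intro x _ x' _ he
      apply Subtype.ext
      funext γ
      have := Set.ext_iff.1 he γ
      simp only [mem_setOf_eq] at this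
      cases h : x.1 γ <;> cases h' : x'.1 γ <;> simp_all

theorem HasPFN.of_discrete {X : Type u} [TopologicalSpace X] [DiscreteTopology X] : HasPFN X :=
  ⟨fun x _ => {x}, fun _ _ => isOpen_discrete _, fun _ _ => rfl, fun _ _ _ _ => Subset.refl _,
    fun y => ⟨0, (finite_singleton y).subset fun _ h => (h : y = _).symm⟩⟩

/-- The image under a closed continuous map with finite fibres. -/
theorem HasPFN.image {X : Type u} {Z : Type v} [TopologicalSpace X] [TopologicalSpace Z]
    (hX : HasPFN X) (f : X → Z) (hf : IsClosedMap f) (hs : Function.Surjective f)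
    (hfin : ∀ z, (f ⁻¹' {z}).Finite) : HasPFN Z := by
  obtain ⟨N, hNo, hNm, hNa, hNf⟩ := hX
  refine ⟨fun z n => (f '' (⋃ x ∈ f ⁻¹' {z}, N x n)ᶜ)ᶜ, ?_, ?_, ?_, ?_⟩
  · intro z n
    exact (hf _ (isOpen_biUnion fun x _ => hNo x n).isClosed_compl).isOpen_compl
  · rintro z n ⟨x, hx, rfl⟩
    exact hx (mem_biUnion (show x ∈ f ⁻¹' {f x} from rfl) (hNm x n))
  · intro z m n hmn
    refine compl_subset_compl.2 (image_mono (compl_subset_compl.2 ?_))
    exact iUnion₂_mono fun x _ => hNa x hmn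
  · intro w
    obtain ⟨y, rfl⟩ := hs w
    obtain ⟨n, hn⟩ := hNf y
    refine ⟨n, (hn.image f).subset ?_⟩
    intro z hz
    have h1 : y ∈ ⋃ x ∈ f ⁻¹' {z}, N x n := by
      by_contra hcon
      exact hz ⟨y, hcon, rfl⟩
    obtain ⟨x, hx, hxy⟩ := mem_iUnion₂.1 h1
    exact ⟨x, hxy, hx⟩

/-- Adding countably many isolated points. -/
theorem HasPFN.of_countable_isolated {X : Type u} [TopologicalSpace X] [T1Space X] (D : Set X)
    (hD : D.Countable) (hiso : ∀ d ∈ D, IsOpen {d}) (h : HasPFN (Dᶜ : Set X)) : HasPFN X := by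
  classical
  have hDo : IsOpen D := by
    rw [← biUnion_of_singleton D]
    exact isOpen_biUnion hiso
  obtain ⟨g, hg⟩ := countable_iff_exists_injOn.1 hD
  have hfin : ∀ n, {x | x ∈ D ∧ g x < n}.Finite := by
    intro n
    refine Set.Finite.of_finite_image ((finite_Iio n).subset ?_)
      (hg.mono fun x hx => hx.1)
    rintro _ ⟨x, hx, rfl⟩
    exact hx.2
  refine HasPFN.of_closed_gdelta Dᶜ hDo.isClosed_compl (fun n => {x | x ∈ D ∧ g x < n}ᶜ)
    (fun n => (hfin n).isClosed.isOpen_compl) ?_ ?_ h ?_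
  · intro m n hmn
    refine compl_subset_compl.2 ?_
    rintro x ⟨h1, h2⟩
    exact ⟨h1, h2.trans_le hmn⟩
  · ext x
    simp only [mem_iInter, mem_compl_iff, mem_setOf_eq, not_and, not_lt]
    constructor
    · intro hx hxD
      exact absurd (hx (g x + 1) hxD) (by omega)
    · intro hx n hxD
      exact absurd hxD hx
  · rw [compl_compl]
    haveI : DiscreteTopology D := by
      rw [discreteTopology_iff_isOpen_singleton]
      intro d
      refine isOpen_induced_iff.2 ⟨{d.1}, hiso d d.2, ?_⟩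
      ext x
      simp [Subtype.ext_iff]
    exact HasPFN.of_discrete

end Pool.Agent.TH785.DP
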